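import Mathlib
import Pool.Agent.Helper73.KS.Cnt

/-!
# Moments of order statistics, by splitting off the last coordinate
-/

namespace Pool.Agent.Helper73.KM

open MeasureTheory Set Pool.Agent.Helper73.KS

/-- the sorted cone -/
def Mo (n : ℕ) : Set (Fin n → ℝ) := {u | ∀ a b : Fin n, a ≤ b → u a ≤ u b}

lemma Mo_meas (n : ℕ) : MeasurableSet (Mo n) := by
  have e : Mo n = ⋂ a : Fin n, ⋂ b : Fin n, {u : Fin n → ℝ | a ≤ b → u a ≤ u b} := by
    ext u
    simp only [mem_iInter]
    exact Iff.rfl
  rw [e]
  refine MeasurableSet.iInter fun a => MeasurableSet.iInter fun b => ?_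
  by_cases h : a ≤ b
  · have e2 : {u : Fin n → ℝ | a ≤ b → u a ≤ u b} = {u : Fin n → ℝ | u a ≤ u b} := by
      ext u
      exact ⟨fun hu => hu h, fun hu _ => hu⟩
    rw [e2]
    exact measurableSet_le (measurable_pi_apply a) (measurable_pi_apply b)
  · have e2 : {u : Fin n → ℝ | a ≤ b → u a ≤ u b} = univ := by
      ext u
      exact ⟨fun _ => trivial, fun _ hab => absurd hab h⟩
    rw [e2]
    exact MeasurableSet.univ

lemma Mo_CG (n : ℕ) : CG (Mo n) := by
  refine ⟨Mo_meas n, fun τ hτ u => ?_, fun c u => ?_⟩
  · constructor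
    · intro h a b hab
      exact le_of_mul_le_mul_left (h a b hab) hτ
    · intro h a b hab
      exact mul_le_mul_of_nonneg_left (h a b hab) hτ.le
  · constructor
    · intro h a b hab
      have := h a b hab
      simpa using this
    · intro h a b hab
      have := h a b hab
      simpa using this

lemma Mo_ae (n : ℕ) : Mo n =ᵐ[PV (Fin n)] Dc (1 : Equiv.Perm (Fin n)) := by
  rw [Filter.eventuallyEq_set]
  filter_upwards [ae_inj n] with u hu
  constructor
  · intro h a b hab
    exact lt_of_le_of_ne (h a b (le_of_lt hab)) fun he => hab.ne (hu he)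
  · intro h a b hab
    exact (Dc_le h a b).2 hab

/-- integral over the sorted cone -/
noncomputable def J (n : ℕ) (f : (Fin n → ℝ) → ℝ) : ℝ := ∫ u in Mo n, f u ∂(PV (Fin n))

lemma J_Dc (n : ℕ) (f : (Fin n → ℝ) → ℝ) :
    J n f = ∫ u in Dc (1 : Equiv.Perm (Fin n)), f u ∂(PV (Fin n)) := by
  unfold J
  rw [setIntegral_congr_set (Mo_ae n)]

lemma J_succ (n : ℕ) {f : (Fin (n + 1) → ℝ) → ℝ} (hf : Continuous f) :
    J (n + 1) f = ∫ v, v ^ n * J n (fun w => f (Fin.snoc (α := fun _ => ℝ) (v • w) v)) ∂lam := by
  have h1 := measurePreserving_piFinSuccAbove (fun _ : Fin (n + 1) => lam) (Fin.last n)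
  have hS : MeasurableSet {p : ℝ × (Fin n → ℝ) | p.2 ∈ Mo n ∧ ∀ a, p.2 a ≤ p.1} := by
    have e : {p : ℝ × (Fin n → ℝ) | p.2 ∈ Mo n ∧ ∀ a, p.2 a ≤ p.1} =
        Prod.snd ⁻¹' (Mo n) ∩ ⋂ a : Fin n, {p : ℝ × (Fin n → ℝ) | p.2 a ≤ p.1} := by
      ext p
      simp only [mem_inter_iff, mem_preimage, mem_iInter]
      exact Iff.rfl
    rw [e]
    refine (measurable_snd (Mo_meas n)).inter (MeasurableSet.iInter fun a => ?_)
    exact measurableSet_le ((measurable_pi_apply a).comp measurable_snd) measurable_fst
  set S := {p : ℝ × (Fin n → ℝ) | p.2 ∈ Mo n ∧ ∀ a, p.2 a ≤ p.1} with hSdef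
  set g : ℝ × (Fin n → ℝ) → ℝ := fun p => f (Fin.snoc (α := fun _ => ℝ) p.2 p.1) with hg
  have hgc : Continuous g := by
    refine hf.comp ?_
    refine continuous_pi fun i => ?_
    refine Fin.lastCases ?_ (fun j => ?_) i
    · simp only [Fin.snoc_last]; fun_prop
    · simp only [Fin.snoc_castSucc]; fun_prop
  have h2 : (MeasurableEquiv.piFinSuccAbove (fun _ : Fin (n + 1) => ℝ) (Fin.last n)) ⁻¹' S =
      Mo (n + 1) := by
    ext u
    constructor
    · rintro ⟨ha, hb⟩ a b hab
      have ha' : ∀ i j : Fin n, i ≤ j → u i.castSucc ≤ u j.castSucc := by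
        intro i j hij
        have := ha i j hij
        simpa [MeasurableEquiv.piFinSuccAbove, Fin.insertNthEquiv, Fin.init] using this
      have hb' : ∀ i : Fin n, u i.castSucc ≤ u (Fin.last n) := by
        intro i
        have := hb i
        simpa [MeasurableEquiv.piFinSuccAbove, Fin.insertNthEquiv, Fin.init] using this
      induction b using Fin.lastCases with
      | last =>
        induction a using Fin.lastCases with
        | last => exact le_rfl
        | cast i => exact hb' i
      | cast j =>
        induction a using Fin.lastCases with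
        | last =>
          exfalso
          have := lt_of_lt_of_le (Fin.castSucc_lt_last j) hab
          exact lt_irrefl _ this
        | cast i => exact ha' i j (by simpa using hab)
    · intro h
      refine ⟨fun i j hij => ?_, fun i => ?_⟩
      · have := h i.castSucc j.castSucc (by simpa using hij)
        simpa [MeasurableEquiv.piFinSuccAbove, Fin.insertNthEquiv, Fin.init] using this
      · have := h i.castSucc (Fin.last n) (Fin.le_last _)
        simpa [MeasurableEquiv.piFinSuccAbove, Fin.insertNthEquiv, Fin.init] using this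
  have h3 : J (n + 1) f = ∫ p in S, g p ∂(lam.prod (PV (Fin n))) := by
    have h4 := h1.setIntegral_preimage_emb
      (MeasurableEquiv.piFinSuccAbove (fun _ : Fin (n + 1) => ℝ) (Fin.last n)).measurableEmbedding
      g S
    rw [h2] at h4
    unfold J
    change _ = ∫ p in S, g p ∂(lam.prod (Measure.pi fun _ : Fin n => lam))
    refine Eq.trans ?_ h4
    change ∫ u in Mo (n + 1), f u ∂(Measure.pi fun _ : Fin (n + 1) => lam) = _
    congr 1
    funext u
    rw [hg]
    congr 1
    funext i
    refine Fin.lastCases ?_ (fun j => ?_) i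
    · simp [MeasurableEquiv.piFinSuccAbove, Fin.insertNthEquiv]
    · simp [MeasurableEquiv.piFinSuccAbove, Fin.insertNthEquiv, Fin.init]
  have hgi : Integrable g (lam.prod (PV (Fin n))) := by
    have e1 : lam.prod (PV (Fin n)) = (volume : Measure (ℝ × (Fin n → ℝ))).restrict
        (Icc 0 1 ×ˢ cub (Fin n)) := by
      rw [PV_eq]
      unfold lam
      rw [Measure.prod_restrict]
      rfl
    rw [e1]
    exact hgc.continuousOn.integrableOn_compact
      (isCompact_Icc.prod (isCompact_univ_pi fun _ => isCompact_Icc))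
  rw [h3, ← integral_indicator hS, integral_prod _ (hgi.indicator hS)]
  refine integral_congr_ae ?_
  filter_upwards [ae_lam] with v hv
  have e2 : (fun w => S.indicator g (v, w)) = (Mo n ∩ {w | ∀ a, w a ≤ v}).indicator
      fun w => f (Fin.snoc (α := fun _ => ℝ) w v) := by
    funext w
    by_cases hw : w ∈ Mo n ∩ {w | ∀ a, w a ≤ v}
    · rw [indicator_of_mem hw, indicator_of_mem (show (v, w) ∈ S from ⟨hw.1, hw.2⟩)]
    · rw [indicator_of_notMem hw, indicator_of_notMem fun h => hw ⟨h.1, h.2⟩]
  rw [e2, integral_indicator ((Mo_meas n).inter (meas_le v)), scal (Mo_CG n) hv.1 hv.2,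
    Fintype.card_fin]
  rfl

lemma J_mul (n : ℕ) (c : ℝ) (f : (Fin n → ℝ) → ℝ) : J n (fun u => c * f u) = c * J n f := by
  unfold J
  rw [integral_const_mul]

lemma lam_pow (k : ℕ) : ∫ v, v ^ k ∂lam = 1 / (k + 1) := by
  rw [int_lam, integral_pow]
  simp

/-- volume of the simplex -/
noncomputable def Vs (n : ℕ) : ℝ := J n fun _ => 1

lemma Vs_succ (n : ℕ) : Vs n = (n + 1) * Vs (n + 1) := by
  have h := J_succ n (f := fun _ => 1) continuous_const
  change Vs (n + 1) = ∫ v, v ^ n * Vs n ∂lam at h
  rw [h, integral_mul_const, lam_pow]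
  field_simp

lemma m1_last (n : ℕ) : J (n + 1) (fun u => u (Fin.last n)) = (n + 1) / (n + 2) * Vs (n + 1) := by
  rw [J_succ n (continuous_apply _)]
  simp only [Fin.snoc_last]
  have e : ∀ v : ℝ, v ^ n * J n (fun _ => v) = v ^ (n + 1) * Vs n := by
    intro v
    have := J_mul n v fun _ => 1
    simp only [mul_one] at this
    rw [this]
    unfold Vs
    ring
  simp only [e]
  rw [integral_mul_const, lam_pow, Vs_succ n]
  push_cast
  field_simp
  ring

lemma m1_cast (n : ℕ) (i : Fin n) : J (n + 1) (fun u => u i.castSucc) =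
    1 / (n + 2) * J n fun u => u i := by
  rw [J_succ n (continuous_apply _)]
  simp only [Fin.snoc_castSucc, Pi.smul_apply, smul_eq_mul]
  have e : ∀ v : ℝ, v ^ n * J n (fun w => v * w i) = v ^ (n + 1) * J n fun w => w i := by
    intro v
    rw [J_mul]
    ring
  simp only [e]
  rw [integral_mul_const, lam_pow]
  push_cast
  ring

theorem mom1 : ∀ (n : ℕ) (i : Fin n), J n (fun u => u i) = ((i : ℕ) + 1) / (n + 1) * Vs n := by
  intro n
  induction n with
  | zero => exact fun i => i.elim0
  | succ n ih =>
    intro i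
    induction i using Fin.lastCases with
    | last =>
      rw [m1_last]
      simp only [Fin.val_last]
      push_cast
      ring
    | cast i =>
      rw [m1_cast, ih i, Vs_succ n]
      simp only [Fin.val_castSucc]
      push_cast
      field_simp
      ring

lemma m2_last (n : ℕ) : J (n + 1) (fun u => u (Fin.last n) * u (Fin.last n)) =
    (n + 1) / (n + 3) * Vs (n + 1) := by
  rw [J_succ n (by fun_prop)]
  simp only [Fin.snoc_last]
  have e : ∀ v : ℝ, v ^ n * J n (fun _ => v * v) = v ^ (n + 2) * Vs n := by
    intro v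
    have := J_mul n (v * v) fun _ => 1
    simp only [mul_one] at this
    rw [this]
    unfold Vs
    ring
  simp only [e]
  rw [integral_mul_const, lam_pow, Vs_succ n]
  push_cast
  field_simp
  ring

lemma m2_mix (n : ℕ) (i : Fin n) : J (n + 1) (fun u => u i.castSucc * u (Fin.last n)) =
    1 / (n + 3) * J n fun u => u i := by
  rw [J_succ n (by fun_prop)]
  simp only [Fin.snoc_castSucc, Fin.snoc_last, Pi.smul_apply, smul_eq_mul]
  have e : ∀ v : ℝ, v ^ n * J n (fun w => v * w i * v) = v ^ (n + 2) * J n fun w => w i := by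
    intro v
    have : (fun w : Fin n → ℝ => v * w i * v) = fun w => (v * v) * w i := by
      funext w; ring
    rw [this, J_mul]
    ring
  simp only [e]
  rw [integral_mul_const, lam_pow]
  push_cast
  ring

lemma m2_cast (n : ℕ) (i j : Fin n) : J (n + 1) (fun u => u i.castSucc * u j.castSucc) =
    1 / (n + 3) * J n fun u => u i * u j := by
  rw [J_succ n (by fun_prop)]
  simp only [Fin.snoc_castSucc, Pi.smul_apply, smul_eq_mul]
  have e : ∀ v : ℝ, v ^ n * J n (fun w => v * w i * (v * w j)) =
      v ^ (n + 2) * J n fun w => w i * w j := by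
    intro v
    have : (fun w : Fin n → ℝ => v * w i * (v * w j)) = fun w => (v * v) * (w i * w j) := by
      funext w; ring
    rw [this, J_mul]
    ring
  simp only [e]
  rw [integral_mul_const, lam_pow]
  push_cast
  ring

theorem mom2 : ∀ (n : ℕ) (i j : Fin n), i ≤ j →
    J n (fun u => u i * u j) = ((i : ℕ) + 1) * ((j : ℕ) + 2) / ((n + 1) * (n + 2)) * Vs n := by
  intro n
  induction n with
  | zero => exact fun i => i.elim0
  | succ n ih =>
    intro i j hij
    induction j using Fin.lastCases with
    | last =>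
      induction i using Fin.lastCases with
      | last =>
        rw [m2_last]
        simp only [Fin.val_last]
        push_cast
        field_simp
        ring
      | cast i =>
        rw [m2_mix, mom1, Vs_succ n]
        simp only [Fin.val_castSucc, Fin.val_last]
        push_cast
        field_simp
        ring
    | cast j =>
      induction i using Fin.lastCases with
      | last => exact absurd (lt_of_lt_of_le (Fin.castSucc_lt_last j) hij) (lt_irrefl _)
      | cast i =>
        rw [m2_cast, ih i j (by simpa using hij), Vs_succ n]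
        simp only [Fin.val_castSucc]
        push_cast
        field_simp
        ring

/-- the square of a difference -/
theorem mom2_diff (n : ℕ) (i j : Fin n) : J n (fun u => (u i - u j) ^ 2) =
    (((i : ℝ) - (j : ℝ)) ^ 2 + |(i : ℝ) - (j : ℝ)|) / ((n + 1) * (n + 2)) * Vs n := by
  wlog hij : i ≤ j with H
  · have h1 := H n j i (le_of_not_ge hij)
    have e : (fun u : Fin n → ℝ => (u i - u j) ^ 2) = fun u => (u j - u i) ^ 2 := by
      funext u; ring
    rw [e, h1, abs_sub_comm]
    ring
  · have e : (fun u : Fin n → ℝ => (u i - u j) ^ 2) =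
        fun u => (u i * u i - 2 * (u i * u j)) + u j * u j := by
      funext u; ring
    have hi : ∀ a b : Fin n, Integrable (fun u : Fin n → ℝ => u a * u b) (PV (Fin n)) :=
      fun a b => int_cont (by fun_prop)
    have h1 : J n (fun u => (u i - u j) ^ 2) =
        (J n (fun u => u i * u i) - 2 * J n (fun u => u i * u j)) + J n fun u => u j * u j := by
      have h2 : Integrable (fun u : Fin n → ℝ => u i * u i - 2 * (u i * u j)) (PV (Fin n)) :=
        int_cont (by fun_prop)
      have h3 : Integrable (fun u : Fin n → ℝ => 2 * (u i * u j)) (PV (Fin n)) :=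
        int_cont (by fun_prop)
      rw [e]
      unfold J
      rw [integral_add h2.integrableOn (hi j j).integrableOn,
        integral_sub (hi i i).integrableOn h3.integrableOn,
        integral_const_mul]
    have hij' : (i : ℝ) ≤ (j : ℝ) := by exact_mod_cast hij
    rw [h1, mom2 n i i le_rfl, mom2 n j j le_rfl, mom2 n i j hij, abs_of_nonpos (by linarith)]
    have h3 : (0:ℝ) < (n:ℝ) + 1 := by positivity
    have h4 : (0:ℝ) < (n:ℝ) + 2 := by positivity
    field_simp
    ring

theorem mom1_diff (n : ℕ) (i j : Fin n) : J n (fun u => u i - u j) =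
    ((i : ℝ) - (j : ℝ)) / (n + 1) * Vs n := by
  have hi : ∀ a : Fin n, Integrable (fun u : Fin n → ℝ => u a) (PV (Fin n)) :=
    fun a => int_cont (by fun_prop)
  have h1 : J n (fun u => u i - u j) = J n (fun u => u i) - J n fun u => u j := by
    unfold J
    rw [integral_sub (hi i).integrableOn (hi j).integrableOn]
  rw [h1, mom1, mom1]
  ring

theorem mom_abs (n : ℕ) (i j : Fin n) : J n (fun u => |u i - u j|) =
    |(i : ℝ) - (j : ℝ)| / (n + 1) * Vs n := by
  wlog hij : j ≤ i with H
  · have h1 := H n j i (le_of_not_ge hij)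
    have e : (fun u : Fin n → ℝ => |u i - u j|) = fun u => |u j - u i| := by
      funext u; rw [abs_sub_comm]
    rw [e, h1, abs_sub_comm]
  · have e : J n (fun u => |u i - u j|) = J n fun u => u i - u j := by
      unfold J
      refine setIntegral_congr_fun (Mo_meas n) fun u hu => ?_
      exact abs_of_nonneg (sub_nonneg.2 (hu j i hij))
    have hij' : (j : ℝ) ≤ (i : ℝ) := by exact_mod_cast hij
    rw [e, mom1_diff, abs_of_nonneg (by linarith)]

end Pool.Agent.Helper73.KM
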