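import Mathlib
import Pool.Agent.Helper73.KM.Mom
import Pool.Agent.Helper8.KS.Defs
import Pool.Agent.Helper8.KS.PL

/-!
# The order-polytope model
-/

set_option autoImplicit false

namespace Pool.Agent.Helper73.KM

open MeasureTheory Set Pool.Agent.Helper73.KS Pool.Agent.Helper8.KS Pool.Agent.Helper1.Balance

variable {n : ℕ}

/-- number of elements strictly below -/
noncomputable def rk (r : Fin n → Fin n → Prop) (x : Fin n) : ℕ :=
  Nat.card {y : Fin n // r y x ∧ y ≠ x}

lemma rk_lt {r : Fin n → Fin n → Prop} (hr : IsPoset r) {a b : Fin n} (h : r a b) (hne : a ≠ b) :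
    rk r a < rk r b := by
  classical
  unfold rk
  rw [Nat.card_eq_fintype_card, Nat.card_eq_fintype_card, Fintype.card_subtype,
    Fintype.card_subtype]
  refine Finset.card_lt_card ?_
  rw [Finset.ssubset_iff_of_subset]
  · refine ⟨a, ?_, ?_⟩
    · rw [Finset.mem_filter]
      exact ⟨Finset.mem_univ _, h, hne⟩
    · rw [Finset.mem_filter]
      exact fun h' => h'.2.2 rfl
  · intro y hy
    rw [Finset.mem_filter] at hy ⊢
    refine ⟨Finset.mem_univ _, hr.2.1 _ _ _ hy.2.1 h, fun he => ?_⟩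
    subst he
    exact hne (hr.2.2 _ _ h hy.2.1)

lemma LEs_nonempty {r : Fin n → Fin n → Prop} (hr : IsPoset r) : (LEs r).Nonempty := by
  classical
  refine ⟨(Tuple.sort (rk r)).symm, ?_⟩
  unfold LEs
  rw [Finset.mem_filter]
  refine ⟨Finset.mem_univ _, fun a b hab => ?_⟩
  by_cases hne : a = b
  · rw [hne]
  · have h1 := rk_lt hr hab hne
    by_contra hc
    push Not at hc
    have h2 := Tuple.monotone_sort (rk r) hc.le
    simp only [Function.comp_apply, Equiv.apply_symm_apply] at h2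
    omega

/-- the closed polytope -/
def K (r : Fin n → Fin n → Prop) : Set (Fin n → ℝ) :=
  {t | (∀ x, 0 ≤ t x ∧ t x ≤ (n : ℝ) + 1) ∧ t ∈ Cone r}

lemma Cone_meas (r : Fin n → Fin n → Prop) : MeasurableSet (Cone r) := by
  have e1 : Cone r = ⋂ a : Fin n, ⋂ b : Fin n, {u : Fin n → ℝ | r a b → u a ≤ u b} := by
    ext u
    simp only [mem_iInter]
    exact Iff.rfl
  rw [e1]
  refine MeasurableSet.iInter fun a => MeasurableSet.iInter fun b => ?_
  by_cases h : r a b
  · have e2 : {u : Fin n → ℝ | r a b → u a ≤ u b} = {u : Fin n → ℝ | u a ≤ u b} := by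
      ext u
      exact ⟨fun hu => hu h, fun hu _ => hu⟩
    rw [e2]
    exact measurableSet_le (measurable_pi_apply a) (measurable_pi_apply b)
  · have e2 : {u : Fin n → ℝ | r a b → u a ≤ u b} = univ := by
      ext u
      exact ⟨fun _ => trivial, fun _ hab => absurd hab h⟩
    rw [e2]
    exact MeasurableSet.univ

lemma K_eq (r : Fin n → Fin n → Prop) :
    K r = (univ.pi fun _ : Fin n => Icc (0 : ℝ) ((n : ℝ) + 1)) ∩ Cone r := by
  ext t
  simp only [K, mem_inter_iff, mem_univ_pi, mem_Icc]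
  exact Iff.rfl

lemma K_meas (r : Fin n → Fin n → Prop) : MeasurableSet (K r) := by
  rw [K_eq]
  exact (MeasurableSet.univ_pi fun _ => measurableSet_Icc).inter (Cone_meas r)

open scoped Pointwise in
lemma K_smul (r : Fin n → Fin n → Prop) : ((n : ℝ) + 1) • (Cone r ∩ cub (Fin n)) = K r := by
  have h0 : (0 : ℝ) < (n : ℝ) + 1 := by positivity
  ext t
  rw [mem_smul_set_iff_inv_smul_mem₀ h0.ne']
  constructor
  · rintro ⟨h1, h2⟩
    refine ⟨fun x => ?_, fun a b hab => ?_⟩
    · have h3 := h2 x (mem_univ x)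
      rw [Pi.smul_apply, smul_eq_mul, mem_Icc, inv_mul_le_iff₀ h0, mul_one] at h3
      refine ⟨?_, h3.2⟩
      have h4 := mul_nonneg h0.le h3.1
      rwa [← mul_assoc, mul_inv_cancel₀ h0.ne', one_mul] at h4
    · have h3 := h1 a b hab
      rw [Pi.smul_apply, Pi.smul_apply, smul_eq_mul, smul_eq_mul] at h3
      exact le_of_mul_le_mul_left h3 (inv_pos.2 h0)
  · rintro ⟨h1, h2⟩
    refine ⟨fun a b hab => ?_, fun x _ => ?_⟩
    · rw [Pi.smul_apply, Pi.smul_apply, smul_eq_mul, smul_eq_mul]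
      exact mul_le_mul_of_nonneg_left (h2 a b hab) (inv_nonneg.2 h0.le)
    · rw [Pi.smul_apply, smul_eq_mul, mem_Icc, inv_mul_le_iff₀ h0, mul_one]
      exact ⟨mul_nonneg (inv_nonneg.2 h0.le) (h1 x).1, (h1 x).2⟩

/-- integral over the polytope through the cube -/
lemma int_K (r : Fin n → Fin n → Prop) (f : (Fin n → ℝ) → ℝ) :
    ∫ t in K r, f t = ((n : ℝ) + 1) ^ n * ∫ u in Cone r, f (((n : ℝ) + 1) • u) ∂(PV (Fin n)) := by
  have h0 : (0 : ℝ) < (n : ℝ) + 1 := by positivity
  rw [PV_eq, Measure.restrict_restrict (Cone_meas r),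
    Measure.setIntegral_comp_smul_of_pos volume f (Cone r ∩ cub (Fin n)) h0,
    Module.finrank_fintype_fun_eq_card, Fintype.card_fin, smul_eq_mul, ← mul_assoc,
    mul_inv_cancel₀ (pow_pos h0 _).ne', one_mul, K_smul]

lemma vol_K_lt (r : Fin n → Fin n → Prop) : volume (K r) < ⊤ := by
  rw [K_eq]
  refine lt_of_le_of_lt (measure_mono inter_subset_left) ?_
  exact (isCompact_univ_pi fun _ => isCompact_Icc).measure_lt_top

lemma cone_count (r : Fin n → Fin n → Prop) :
    (PV (Fin n)).real (Cone r) = ((LEs r).card : ℝ) * Vs n := by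
  classical
  have h2 := count (Cone r) (fun σ => ∀ a b, r a b → σ a ≤ σ b) fun σ u hu => by
      refine forall_congr' fun a => forall_congr' fun b => ?_
      rw [Dc_le hu]
  rw [h2]
  congr 1
  · rw [Nat.card_eq_fintype_card, Fintype.card_subtype]
    unfold LEs
    congr 2
  · unfold Vs
    rw [J_Dc, real_eq]

lemma Vs_pos (n : ℕ) : 0 < Vs n := by
  have h := Dc_pos n
  have e : Vs n = (PV (Fin n)).real (Dc (1 : Equiv.Perm (Fin n))) := by
    unfold Vs
    rw [J_Dc, real_eq]
  rw [e]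
  exact h

lemma cone_pos {r : Fin n → Fin n → Prop} (hr : IsPoset r) : 0 < (PV (Fin n)).real (Cone r) := by
  rw [cone_count]
  have := (LEs_nonempty hr).card_pos
  have := Vs_pos n
  positivity

lemma vol_K_real (r : Fin n → Fin n → Prop) :
    (volume (K r)).toReal = ((n : ℝ) + 1) ^ n * (PV (Fin n)).real (Cone r) := by
  have h1 := int_K r fun _ => 1
  rw [setIntegral_const, smul_eq_mul, mul_one, ← real_eq] at h1
  exact h1

lemma vol_K_ne {r : Fin n → Fin n → Prop} (hr : IsPoset r) : volume (K r) ≠ 0 := by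
  intro h
  have h1 := vol_K_real r
  rw [h, ENNReal.toReal_zero] at h1
  have := cone_pos hr
  have h2 : 0 < ((n : ℝ) + 1) ^ n := by positivity
  have h3 := mul_pos h2 this
  linarith

/-- the model measure -/
noncomputable def nu (r : Fin n → Fin n → Prop) : Measure (Fin n → ℝ) :=
  ProbabilityTheory.cond volume (K r)

lemma nu_eq (r : Fin n → Fin n → Prop) :
    nu r = (volume (K r))⁻¹ • (volume : Measure (Fin n → ℝ)).restrict (K r) := rfl

lemma nu_prob {r : Fin n → Fin n → Prop} (hr : IsPoset r) : IsProbabilityMeasure (nu r) :=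
  ProbabilityTheory.cond_isProbabilityMeasure_of_finite (vol_K_ne hr) (vol_K_lt r).ne

lemma nu_mem (r : Fin n → Fin n → Prop) : ∀ᵐ t ∂(nu r), t ∈ K r :=
  ProbabilityTheory.ae_cond_mem (K_meas r)

/-- integrals against the model -/
lemma nu_int (r : Fin n → Fin n → Prop) (f : (Fin n → ℝ) → ℝ) :
    ∫ t, f t ∂(nu r) = ((PV (Fin n)).real (Cone r))⁻¹ *
      ∫ u in Cone r, f (((n : ℝ) + 1) • u) ∂(PV (Fin n)) := by
  have h0 : (0 : ℝ) < ((n : ℝ) + 1) ^ n := by positivity
  rw [nu_eq, integral_smul_measure, int_K, ENNReal.toReal_inv, vol_K_real, smul_eq_mul, mul_inv]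
  field_simp

/-- relabelling, as an equivalence -/
def relE (σ : Equiv.Perm (Fin n)) : (Fin n → ℝ) ≃ᵐ (Fin n → ℝ) where
  toFun := fun u w => u (σ.symm w)
  invFun := fun u w => u (σ w)
  left_inv := fun u => by funext w; simp
  right_inv := fun u => by funext w; simp
  measurable_toFun := by
    refine measurable_pi_lambda _ fun w => ?_
    exact measurable_pi_apply _
  measurable_invFun := by
    refine measurable_pi_lambda _ fun w => ?_
    exact measurable_pi_apply _

lemma int_Dc (σ : Equiv.Perm (Fin n)) (F : (Fin n → ℝ) → ℝ) :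
    ∫ u in Dc σ, F u ∂(PV (Fin n)) = J n fun w => F fun a => w (σ a) := by
  rw [J_Dc]
  have h1 : MeasurePreserving (relE σ) (PV (Fin n)) (PV (Fin n)) := mp_relabel σ
  have h2 := h1.setIntegral_preimage_emb (relE σ).measurableEmbedding
    (fun w => F fun a => w (σ a)) (Dc 1)
  rw [← h2]
  have h3 : (relE σ) ⁻¹' (Dc (1 : Equiv.Perm (Fin n))) = Dc σ := by
    ext u
    constructor
    · intro h a b hab
      have := h (σ a) (σ b) hab
      change u (σ.symm (σ a)) < u (σ.symm (σ b)) at this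
      simpa only [σ.symm_apply_apply] using this
    · intro h a b hab
      refine h _ _ ?_
      rw [σ.apply_symm_apply, σ.apply_symm_apply]
      exact hab
  rw [h3]
  congr 1
  funext u
  congr 1
  funext a
  change u a = u (σ.symm (σ a))
  rw [σ.symm_apply_apply]

lemma int_cone (r : Fin n → Fin n → Prop) {F : (Fin n → ℝ) → ℝ}
    (hF : Integrable F (PV (Fin n))) :
    ∫ u in Cone r, F u ∂(PV (Fin n)) = ∑ σ ∈ LEs r, J n fun w => F fun a => w (σ a) := by
  classical
  have h1 : Cone r =ᵐ[PV (Fin n)] ⋃ σ ∈ LEs r, Dc σ := by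
    rw [Filter.eventuallyEq_set]
    filter_upwards [ae_inj n] with u hu
    simp only [mem_iUnion, exists_prop]
    obtain ⟨σ, hσ⟩ := Dc_cover hu
    have key : ∀ σ', u ∈ Dc σ' → (u ∈ Cone r ↔ σ' ∈ LEs r) := by
      intro σ' hσ'
      unfold LEs
      rw [Finset.mem_filter]
      constructor
      · intro h
        exact ⟨Finset.mem_univ _, fun a b hab => (Dc_le hσ' a b).1 (h a b hab)⟩
      · intro h a b hab
        exact (Dc_le hσ' a b).2 (h.2 a b hab)
    constructor
    · intro h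
      exact ⟨σ, (key σ hσ).1 h, hσ⟩
    · rintro ⟨σ', h, hσ'⟩
      exact (key σ' hσ').2 h
  rw [setIntegral_congr_set h1, integral_biUnion_finset]
  · exact Finset.sum_congr rfl fun σ _ => int_Dc σ F
  · exact fun σ _ => Dc_meas σ
  · intro σ _ σ' _ hne
    change Disjoint (Dc σ) (Dc σ')
    rw [Set.disjoint_left]
    intro u hu hu'
    exact hne (Dc_disj hu hu')
  · exact fun σ _ => hF.integrableOn

/-- the average over linear extensions -/
lemma nu_avg {r : Fin n → Fin n → Prop} {f : (Fin n → ℝ) → ℝ}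
    (hf : Continuous f) (G : Equiv.Perm (Fin n) → ℝ)
    (hG : ∀ σ, J n (fun w => f (((n : ℝ) + 1) • fun a => w (σ a))) = G σ * Vs n) :
    ∫ t, f t ∂(nu r) = Ex r G := by
  have hc : Continuous fun u : Fin n → ℝ => f (((n : ℝ) + 1) • u) := by fun_prop
  rw [nu_int, int_cone r (int_cont hc), cone_count]
  simp only [hG]
  rw [← Finset.sum_mul]
  unfold Ex
  have := Vs_pos n
  rw [mul_inv, div_eq_mul_inv]
  field_simp

lemma nu_mean (r : Fin n → Fin n → Prop) (x y : Fin n) :
    ∫ t, (t x - t y) ∂(nu r) = ht r x - ht r y := by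
  rw [nu_avg (f := fun t => t x - t y) (by fun_prop) fun σ => pos σ x - pos σ y]
  · unfold ht Ex
    rw [Finset.sum_sub_distrib, sub_div]
  · intro σ
    have h := mom1_diff n (σ x) (σ y)
    have e : (fun w : Fin n → ℝ => (((n : ℝ) + 1) • fun a => w (σ a)) x -
        (((n : ℝ) + 1) • fun a => w (σ a)) y) =
        fun w => ((n : ℝ) + 1) * (w (σ x) - w (σ y)) := by
      funext w
      simp only [Pi.smul_apply, smul_eq_mul]
      ring
    rw [e, J_mul, h]
    unfold pos
    field_simp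
    ring

lemma nu_absm (r : Fin n → Fin n → Prop) (x y : Fin n) :
    ∫ t, |t x - t y| ∂(nu r) = Ex r fun σ => |pos σ x - pos σ y| := by
  rw [nu_avg (f := fun t => |t x - t y|) (by fun_prop) fun σ => |pos σ x - pos σ y|]
  intro σ
  have h := mom_abs n (σ x) (σ y)
  have e : (fun w : Fin n → ℝ => |(((n : ℝ) + 1) • fun a => w (σ a)) x -
      (((n : ℝ) + 1) • fun a => w (σ a)) y|) =
      fun w => ((n : ℝ) + 1) * |w (σ x) - w (σ y)| := by
    funext w
    simp only [Pi.smul_apply, smul_eq_mul]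
    rw [← mul_sub, abs_mul, abs_of_pos (show (0:ℝ) < (n : ℝ) + 1 by positivity)]
  rw [e, J_mul, h]
  unfold pos
  rw [show ((σ x : ℕ) : ℝ) + 1 - (((σ y : ℕ) : ℝ) + 1) = ((σ x : ℕ) : ℝ) - ((σ y : ℕ) : ℝ) by ring]
  field_simp

lemma nu_sqm (r : Fin n → Fin n → Prop) (x y : Fin n) :
    ∫ t, (t x - t y) ^ 2 ∂(nu r) ≤
      Ex r (fun σ => (pos σ x - pos σ y) ^ 2) + Ex r fun σ => |pos σ x - pos σ y| := by
  rw [nu_avg (f := fun t => (t x - t y) ^ 2) (by fun_prop) fun σ =>
    (((n : ℝ) + 1) / ((n : ℝ) + 2)) * ((pos σ x - pos σ y) ^ 2 + |pos σ x - pos σ y|)]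
  · unfold Ex
    rw [← add_div, ← Finset.sum_add_distrib]
    refine div_le_div_of_nonneg_right ?_ (Nat.cast_nonneg _)
    refine Finset.sum_le_sum fun σ _ => ?_
    have h1 : ((n : ℝ) + 1) / ((n : ℝ) + 2) ≤ 1 := by
      rw [div_le_one (by positivity)]
      linarith
    have h2 : 0 ≤ (pos σ x - pos σ y) ^ 2 + |pos σ x - pos σ y| := by positivity
    calc (((n : ℝ) + 1) / ((n : ℝ) + 2)) * ((pos σ x - pos σ y) ^ 2 + |pos σ x - pos σ y|)
        ≤ 1 * ((pos σ x - pos σ y) ^ 2 + |pos σ x - pos σ y|) :=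
          mul_le_mul_of_nonneg_right h1 h2
      _ = _ := one_mul _
  · intro σ
    have h := mom2_diff n (σ x) (σ y)
    have e : (fun w : Fin n → ℝ => ((((n : ℝ) + 1) • fun a => w (σ a)) x -
        (((n : ℝ) + 1) • fun a => w (σ a)) y) ^ 2) =
        fun w => ((n : ℝ) + 1) ^ 2 * (w (σ x) - w (σ y)) ^ 2 := by
      funext w
      simp only [Pi.smul_apply, smul_eq_mul]
      ring
    rw [e, J_mul, h]
    unfold pos
    rw [show ((σ x : ℕ) : ℝ) + 1 - (((σ y : ℕ) : ℝ) + 1) =
      ((σ x : ℕ) : ℝ) - ((σ y : ℕ) : ℝ) by ring]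
    field_simp

lemma nu_prob_lt (r : Fin n → Fin n → Prop) (x y : Fin n) :
    (nu r).real {t | t x < t y} = prob r x y := by
  have hm : MeasurableSet {t : Fin n → ℝ | t x < t y} :=
    measurableSet_lt (measurable_pi_apply x) (measurable_pi_apply y)
  have h0 : (0 : ℝ) < (n : ℝ) + 1 := by positivity
  have h1 : (nu r).real {t | t x < t y} =
      ∫ t, ({t : Fin n → ℝ | t x < t y}).indicator (fun _ => (1:ℝ)) t ∂(nu r) := by
    rw [integral_indicator_const _ hm, smul_eq_mul, mul_one]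
  have e : (fun u : Fin n → ℝ => ({t : Fin n → ℝ | t x < t y}).indicator (fun _ => (1:ℝ))
      (((n : ℝ) + 1) • u)) = (evt x y).indicator fun _ => (1 : ℝ) := by
    funext u
    by_cases hu : u x < u y
    · rw [indicator_of_mem (show u ∈ evt x y from hu), indicator_of_mem]
      exact mul_lt_mul_of_pos_left hu h0
    · rw [indicator_of_notMem (show u ∉ evt x y from hu), indicator_of_notMem]
      intro h
      exact hu (lt_of_mul_lt_mul_left h h0.le)
  have hev : MeasurableSet (evt x y : Set (Fin n → ℝ)) := hm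
  rw [h1, nu_int, prob_vol, e, integral_indicator_const _ hev, smul_eq_mul, mul_one,
    measureReal_restrict_apply hev, inter_comm, div_eq_inv_mul]
  rfl

lemma nu_noatom (r : Fin n → Fin n → Prop) (x y : Fin n) (hxy : x ≠ y) (c : ℝ) :
    nu r {t | t x - t y = c} = 0 := by
  refine ProbabilityTheory.cond_absolutelyContinuous ?_
  set p : (Fin n → ℝ) →ₗ[ℝ] ℝ := (LinearMap.proj x : (Fin n → ℝ) →ₗ[ℝ] ℝ) -
    (LinearMap.proj y : (Fin n → ℝ) →ₗ[ℝ] ℝ) with hp
  have h2 : (volume : Measure (Fin n → ℝ)) (LinearMap.ker p) = 0 := by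
    refine Measure.addHaar_submodule _ _ fun htop => ?_
    have h3 : (Pi.single x 1 : Fin n → ℝ) ∈ LinearMap.ker p := by
      rw [htop]; trivial
    rw [LinearMap.mem_ker, hp] at h3
    simp [hxy] at h3
  have h4 : {t : Fin n → ℝ | t x - t y = c} =
      (fun t => -(Pi.single x c : Fin n → ℝ) + t) ⁻¹' (LinearMap.ker p : Set (Fin n → ℝ)) := by
    ext t
    rw [mem_preimage, SetLike.mem_coe, LinearMap.mem_ker]
    change t x - t y = c ↔ (-(Pi.single x c : Fin n → ℝ) + t) x -
      (-(Pi.single x c : Fin n → ℝ) + t) y = 0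
    simp only [Pi.add_apply, Pi.neg_apply, Pi.single_eq_same]
    rw [Pi.single_eq_of_ne (Ne.symm hxy)]
    constructor <;> intro h <;> linarith
  rw [h4, measure_preimage_add, h2]

lemma nu_real (r : Fin n → Fin n → Prop) (A : Set (Fin n → ℝ)) :
    (nu r).real A = ((volume (K r))⁻¹ * volume (K r ∩ A)).toReal := by
  unfold nu
  rw [Measure.real, ProbabilityTheory.cond_apply (K_meas r)]

lemma nu_mid (r : Fin n → Fin n → Prop) (A B D : Set (Fin n → ℝ)) (hA : MeasurableSet A)
    (hB : MeasurableSet B) (hD : MeasurableSet D)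
    (h : ∀ a ∈ A, ∀ b ∈ B, a ∈ Cone r → b ∈ Cone r → (fun x => (a x + b x) / 2) ∈ D) :
    (nu r).real A * (nu r).real B ≤ (nu r).real D ^ 2 := by
  have h1 := bm_mid (K r ∩ A) (K r ∩ B) (K r ∩ D) ((K_meas r).inter hA) ((K_meas r).inter hB)
    ((K_meas r).inter hD) (by
      rintro a ⟨ha1, ha2⟩ b ⟨hb1, hb2⟩
      refine ⟨⟨fun x => ?_, fun x y hxy => ?_⟩, h a ha2 b hb2 ha1.2 hb1.2⟩
      · have := ha1.1 x
        have := hb1.1 x
        constructor <;> linarith
      · have := ha1.2 x y hxy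
        have := hb1.2 x y hxy
        change (a x + b x) / 2 ≤ (a y + b y) / 2
        linarith)
  rw [nu_real, nu_real, nu_real, ← ENNReal.toReal_mul, ← ENNReal.toReal_pow]
  have hfin : ∀ S : Set (Fin n → ℝ), volume (K r ∩ S) ≠ ⊤ := fun S =>
    (lt_of_le_of_lt (measure_mono inter_subset_left) (vol_K_lt r)).ne
  by_cases hK : volume (K r) = 0
  · have hz : ∀ S : Set (Fin n → ℝ), volume (K r ∩ S) = 0 := fun S =>
      le_antisymm ((measure_mono inter_subset_left).trans hK.le) bot_le
    rw [hz, hz, hz]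
    simp
  · refine ENNReal.toReal_mono ?_ ?_
    · exact ENNReal.pow_ne_top (ENNReal.mul_ne_top (ENNReal.inv_ne_top.2 hK) (hfin D))
    · calc (volume (K r))⁻¹ * volume (K r ∩ A) * ((volume (K r))⁻¹ * volume (K r ∩ B))
          = (volume (K r))⁻¹ ^ 2 * (volume (K r ∩ A) * volume (K r ∩ B)) := by ring
        _ ≤ (volume (K r))⁻¹ ^ 2 * (volume (K r ∩ D)) ^ 2 := mul_le_mul_right h1 _
        _ = ((volume (K r))⁻¹ * volume (K r ∩ D)) ^ 2 := by ring

lemma shift_meas (B : Finset (Fin n)) (l : ℝ) : Measurable (shiftBy B l) := by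
  refine measurable_pi_lambda _ fun x => ?_
  unfold shiftBy
  exact (measurable_pi_apply x).add_const _

lemma nu_shift {r : Fin n → Fin n → Prop} {top : Fin n} (htop : ∀ x, r x top)
    (B : Finset (Fin n)) (l : ℝ) (A : Set (Fin n → ℝ)) (hB : top ∉ B) (hl : 0 ≤ l)
    (hA : MeasurableSet A) (hs : ∀ t ∈ A, shiftBy B l t ∈ Cone r)
    (g : (Fin n → ℝ) → ENNReal) :
    ∫⁻ t in A, g (shiftBy B l t) ∂(nu r) ≤ ∫⁻ t, g t ∂(nu r) := by
  rw [nu_eq, Measure.restrict_smul, lintegral_smul_measure, lintegral_smul_measure,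
    Measure.restrict_restrict hA, smul_eq_mul, smul_eq_mul]
  refine mul_le_mul_right ?_ _
  have e : ∀ t : Fin n → ℝ, shiftBy B l t = t + (fun x => if x ∈ B then l else 0) := fun t => rfl
  rw [← lintegral_indicator (hA.inter (K_meas r)), ← lintegral_indicator (K_meas r),
    ← lintegral_add_right_eq_self ((K r).indicator g) (fun x => if x ∈ B then l else 0)]
  refine lintegral_mono fun t => ?_
  by_cases ht : t ∈ A ∩ K r
  · rw [indicator_of_mem ht]
    have h1 : shiftBy B l t ∈ K r := by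
      refine ⟨fun x => ?_, hs t ht.1⟩
      have h2 := ht.2.1 x
      have h3 := hs t ht.1 x top (htop x)
      have h4 : shiftBy B l t top = t top := by
        unfold shiftBy
        rw [if_neg hB, add_zero]
      have h5 : t x ≤ shiftBy B l t x := by
        unfold shiftBy
        split_ifs
        · linarith
        · linarith
      exact ⟨h2.1.trans h5, h3.trans (h4.le.trans (ht.2.1 top).2)⟩
    rw [← e t, indicator_of_mem h1]
  · rw [indicator_of_notMem ht]
    exact bot_le

/-- **The order-polytope model exists.** -/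
theorem exists_model (r : Fin n → Fin n → Prop) (top : Fin n) (hr : IsPoset r)
    (htop : ∀ x, r x top) : Nonempty (Model r top) :=
  ⟨{ poset := hr
     isTop := htop
     μ := nu r
     isProb := nu_prob hr
     bdd := ⟨(n : ℝ) + 1, by
       filter_upwards [nu_mem r] with t ht x
       rw [abs_of_nonneg (ht.1 x).1]
       exact (ht.1 x).2⟩
     cone := by
       filter_upwards [nu_mem r] with t ht
       exact ht.2
     noatom := nu_noatom r
     prob_lt := fun x y _ => nu_prob_lt r x y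
     mean := nu_mean r
     absm := nu_absm r
     sqm := nu_sqm r
     mid := nu_mid r
     shift := fun B l A hB hl hA hs g _ => nu_shift htop B l A hB hl hA hs g }⟩

end Pool.Agent.Helper73.KM
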